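import Mathlib

/-! Subtractive closure does not commute with products of ideals in `ℕ[X, Y, Z]`. -/

namespace Pool.Agent.Results.MP_05a6d5_al.ProductClosure

open MvPolynomial

/-- A semiring is zerosumfree if `a + b = 0` implies `a = b = 0`. -/
def Zerosumfree (S : Type*) [CommSemiring S] : Prop := ∀ a b : S, a + b = 0 → a = 0 ∧ b = 0

/-- An ideal `I` is subtractive if `x ∈ I` and `x + y ∈ I` imply `y ∈ I`. -/
def IsSubtractive {H : Type*} [CommSemiring H] (I : Ideal H) : Prop :=
  ∀ x y, x ∈ I → x + y ∈ I → y ∈ I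

/-- The subtractive closure of `I`: the intersection of all subtractive ideals containing `I`. -/
def scl {H : Type*} [CommSemiring H] (I : Ideal H) : Ideal H :=
  sInf {J | I ≤ J ∧ IsSubtractive J}

/-- The subtractive closure is a subtractive ideal containing `I`, and the least such ideal. -/
theorem scl_spec {H : Type*} [CommSemiring H] (I : Ideal H) :
    I ≤ scl I ∧ IsSubtractive (scl I) ∧ ∀ J, I ≤ J → IsSubtractive J → scl I ≤ J := by
  refine ⟨le_sInf fun J hJ => hJ.1, ?_, fun J h1 h2 => sInf_le ⟨h1, h2⟩⟩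
  intro x y hx hxy
  unfold scl at *
  rw [Submodule.mem_sInf] at *
  intro J hJ
  exact hJ.2 x y (hx J hJ) (hxy J hJ)

/-- Evaluation at `(-1, 1, 1)`. -/
noncomputable def φ : MvPolynomial (Fin 3) ℕ →+* ℤ := eval₂Hom (Nat.castRingHom ℤ) ![-1, 1, 1]

/-- Evaluation at `(1, 1, 1)`. -/
noncomputable def ψ : MvPolynomial (Fin 3) ℕ →+* ℤ := eval₂Hom (Nat.castRingHom ℤ) ![1, 1, 1]

theorem key (f : MvPolynomial (Fin 3) ℕ) :
    2 * ((constantCoeff f : ℕ) : ℤ) ≤ ψ f + φ f := by
  classical
  induction f using MvPolynomial.induction_on' with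
  | monomial m c =>
    have h1 : ψ (monomial m c) = c := by
      unfold ψ
      rw [coe_eval₂Hom, eval₂_monomial, Finsupp.prod_fintype _ _ (by simp)]
      simp [Fin.prod_univ_three]
    have h2 : φ (monomial m c) = c * (-1) ^ (m 0) := by
      unfold φ
      rw [coe_eval₂Hom, eval₂_monomial, Finsupp.prod_fintype _ _ (by simp)]
      simp [Fin.prod_univ_three]
    rw [h1, h2, constantCoeff_monomial]
    by_cases hm : m = 0
    · rw [if_pos hm, hm]
      simp
      linarith
    · rw [if_neg hm]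
      rcases neg_one_pow_eq_or ℤ (m 0) with h | h
      · rw [h]
        push_cast
        positivity
      · rw [h]
        simp
  | add p q hp hq =>
    rw [map_add, map_add, map_add]
    push_cast
    linarith

theorem ker_subtractive : IsSubtractive (RingHom.ker φ) := by
  intro x y hx hxy
  rw [RingHom.mem_ker] at *
  rwa [map_add, hx, zero_add] at hxy

theorem key2 {h : MvPolynomial (Fin 3) ℕ} (hh : h ∈ RingHom.ker φ * RingHom.ker φ) :
    4 * ((constantCoeff h : ℕ) : ℤ) ≤ ψ h := by
  refine Submodule.mul_induction_on hh ?_ ?_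
  · intro f hf g hg
    rw [RingHom.mem_ker] at hf hg
    have h1 := key f
    have h2 := key g
    rw [hf, add_zero] at h1
    rw [hg, add_zero] at h2
    rw [map_mul, map_mul]
    push_cast
    have h3 : (0 : ℤ) ≤ ((constantCoeff f : ℕ) : ℤ) := Int.natCast_nonneg _
    have h4 : (0 : ℤ) ≤ ((constantCoeff g : ℕ) : ℤ) := Int.natCast_nonneg _
    nlinarith [mul_le_mul h1 h2 (by positivity) (by linarith)]
  · intro x y hx hy
    rw [map_add, map_add]
    push_cast
    linarith

/-- **Main theorem.** The semiring `ℕ` is zerosumfree, and in `ℕ[X, Y, Z]` there are ideals `I`,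
`J` with `scl(I) scl(J) ≠ scl(I J)`; in particular the equality does not hold for all zerosumfree
semirings. -/
theorem result :
    (Zerosumfree ℕ ∧ ∃ I J : Ideal (MvPolynomial (Fin 3) ℕ), scl I * scl J ≠ scl (I * J)) ∧
    ¬ ∀ (S₀ : Type) [CommSemiring S₀] [Nontrivial S₀], Zerosumfree S₀ →
      ∀ I J : Ideal (MvPolynomial (Fin 3) S₀), scl I * scl J = scl (I * J) := by
  have hz : Zerosumfree ℕ := fun a b h => by omega
  have hmain : ∃ I J : Ideal (MvPolynomial (Fin 3) ℕ), scl I * scl J ≠ scl (I * J) := by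
    set I : Ideal (MvPolynomial (Fin 3) ℕ) := Ideal.span {1 + X 0} with hI
    refine ⟨I, I, fun heq => ?_⟩
    have h1 : (3 + 4 * X 0 + X 0 ^ 4 : MvPolynomial (Fin 3) ℕ) ∈ scl (I * I) := by
      unfold scl
      rw [Submodule.mem_sInf]
      rintro J ⟨hJ, hsub⟩
      have hm : (1 + X 0 : MvPolynomial (Fin 3) ℕ) ∈ I := Ideal.subset_span rfl
      have h2 := hJ (Ideal.mul_mem_mul hm hm)
      apply hsub (2 * X 0 * ((1 + X 0) * (1 + X 0))) _ (Ideal.mul_mem_left _ _ h2)
      have h3 : (2 * X 0 * ((1 + X 0) * (1 + X 0)) + (3 + 4 * X 0 + X 0 ^ 4)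
          : MvPolynomial (Fin 3) ℕ) = (3 + X 0 ^ 2) * ((1 + X 0) * (1 + X 0)) := by ring
      rw [h3]
      exact Ideal.mul_mem_left _ _ h2
    rw [← heq] at h1
    have hle : scl I ≤ RingHom.ker φ := by
      apply (scl_spec I).2.2 _ _ ker_subtractive
      rw [hI, Ideal.span_le, Set.singleton_subset_iff, SetLike.mem_coe, RingHom.mem_ker]
      simp [φ]
    have h4 := key2 (Ideal.mul_mono hle hle h1)
    have h5 : constantCoeff (3 + 4 * X 0 + X 0 ^ 4 : MvPolynomial (Fin 3) ℕ) = 3 := by
      rw [map_add, map_add, map_mul, map_pow, constantCoeff_X]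
      have h7 : (constantCoeff (3 : MvPolynomial (Fin 3) ℕ) : ℕ) = 3 :=
        map_ofNat constantCoeff 3
      rw [h7]
      simp
    have h6 : ψ (3 + 4 * X 0 + X 0 ^ 4) = 8 := by
      simp [ψ]
    rw [h5, h6] at h4
    norm_num at h4
  refine ⟨⟨hz, hmain⟩, fun hall => ?_⟩
  obtain ⟨I, J, hIJ⟩ := hmain
  exact hIJ (hall ℕ hz I J)

end Pool.Agent.Results.MP_05a6d5_al.ProductClosure
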